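import Pool.Agent.Helper38.FRX.Goals

set_option autoImplicit false

/-!
Counting small subsets.
-/

namespace Pool.Agent.Helper70.FRX

theorem subc : Pool.Agent.Helper38.FRX.SubcStmt := by
  intro V _ S L k v hL hS
  have hL' : (1 : ℝ) ≤ L := by exact_mod_cast hL
  have h4 : (0 : ℝ) < 4 * L := by linarith
  set t : ℝ := (4 * (L : ℝ))⁻¹ with ht
  have ht0 : 0 < t := inv_pos.mpr h4
  have hone : (1 : ℝ) ≤ 4 * L := by linarith
  have key : ∀ C ∈ S.powerset.filter (fun C => C.card ≤ v),
      (1 : ℝ) ≤ t ^ C.card * (4 * (L : ℝ)) ^ v := by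
    intro C hC
    have hc : C.card ≤ v := (Finset.mem_filter.mp hC).2
    obtain ⟨n, rfl⟩ := Nat.exists_eq_add_of_le hc
    rw [pow_add, ← mul_assoc, ← mul_pow, ht, inv_mul_cancel₀ h4.ne', one_pow, one_mul]
    exact one_le_pow₀ hone
  have h1 : ((S.powerset.filter fun C => C.card ≤ v).card : ℝ) ≤
      ∑ C ∈ S.powerset, t ^ C.card * (4 * (L : ℝ)) ^ v := by
    calc ((S.powerset.filter fun C => C.card ≤ v).card : ℝ)
        = ∑ C ∈ S.powerset.filter (fun C => C.card ≤ v), (1 : ℝ) := by simp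
      _ ≤ ∑ C ∈ S.powerset.filter (fun C => C.card ≤ v), t ^ C.card * (4 * (L : ℝ)) ^ v :=
        Finset.sum_le_sum key
      _ ≤ ∑ C ∈ S.powerset, t ^ C.card * (4 * (L : ℝ)) ^ v :=
        Finset.sum_le_sum_of_subset_of_nonneg (Finset.filter_subset _ _)
          (fun C _ _ => by positivity)
  have h2 : ∑ C ∈ S.powerset, t ^ C.card = (t + 1) ^ S.card := by
    rw [← Finset.sum_pow_mul_eq_add_pow t 1 S]
    exact Finset.sum_congr rfl fun C _ => by rw [one_pow, mul_one]
  have h3 : (t + 1) ^ S.card ≤ 3 ^ k := by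
    calc (t + 1) ^ S.card ≤ (t + 1) ^ (4 * L * k) :=
          pow_le_pow_right₀ (by linarith) hS
      _ = ((t + 1) ^ (4 * L)) ^ k := pow_mul _ _ _
      _ ≤ ((Real.exp t) ^ (4 * L)) ^ k := by
        have := Real.add_one_le_exp t
        gcongr
      _ = (Real.exp 1) ^ k := by
        congr 1
        rw [← Real.exp_nat_mul]
        congr 1
        push_cast
        rw [ht]
        exact mul_inv_cancel₀ h4.ne'
      _ ≤ 3 ^ k := by
        have := Real.exp_one_lt_d9
        gcongr
        linarith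
  refine h1.trans ?_
  rw [← Finset.sum_mul, h2, mul_comm]
  gcongr

end Pool.Agent.Helper70.FRX
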